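import Pool.Agent.J4H93.HN.Stm

set_option autoImplicit false

/-! # Project HN, (CIR): the circle method -/

namespace Pool.Agent.J4H2.HN

open Finset
open Pool.Agent.J4H93.HN

theorem Ph_zero (B : Finset ℕ) (q : ℝ) : Ph B q 0 = 1 := by
  unfold Ph
  refine Finset.prod_eq_one fun n _ => ?_
  simp

/-- conjugation -/
theorem Ph_conj (B : Finset ℕ) (q : ℝ) (P : ℕ) (hB : ∀ n ∈ B, 0 < n ∧ n ∣ P) (h : ℕ) (hh : h ≤ P) :
    Ph B q ((P - h : ℕ) : ℤ) = (starRingEnd ℂ) (Ph B q (h : ℤ)) := by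
  unfold Ph
  rw [map_prod]
  refine Finset.prod_congr rfl fun n hn => ?_
  obtain ⟨hn0, c, hc⟩ := hB n hn
  have hn' : (n : ℂ) ≠ 0 := by exact_mod_cast hn0.ne'
  rw [map_add, map_sub, map_one, map_mul, Complex.conj_ofReal, ← Complex.exp_conj]
  congr 2
  have h1 : (starRingEnd ℂ) (2 * Real.pi * Complex.I * ((h : ℤ) : ℂ) / n) =
      -(2 * Real.pi * Complex.I * (h : ℂ) / n) := by
    simp only [map_div₀, map_mul, Complex.conj_ofReal, Complex.conj_I, map_ofNat, Int.cast_natCast,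
      Complex.conj_natCast, mul_neg, neg_mul, neg_div]
  have h2 : (2 * Real.pi * Complex.I * (((P - h : ℕ) : ℤ) : ℂ) / n : ℂ) =
      -(2 * Real.pi * Complex.I * (h : ℂ) / n) + (c : ℂ) * (2 * Real.pi * Complex.I) := by
    rw [Int.cast_natCast, Nat.cast_sub hh, hc, Nat.cast_mul]
    field_simp
    ring
  rw [h1, h2, Complex.exp_add, Complex.exp_nat_mul_two_pi_mul_I, mul_one]

theorem small1 (Y : ℕ) (hY : 10 ^ 6 ≤ Y) : ((Y : ℝ) ^ 240 + 1) * Real.exp (-(Y : ℝ) ^ 2) ≤ 1 / 16 := by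
  have hYr : (10 : ℝ) ^ 6 ≤ Y := by exact_mod_cast hY
  have hY0 : (0 : ℝ) < Y := by linarith
  have h1 : ((Y : ℝ) + 1) ^ 241 ≤ Real.exp ((Y : ℝ) ^ 2) := by
    calc ((Y : ℝ) + 1) ^ 241 ≤ (Real.exp Y) ^ 241 :=
          pow_le_pow_left₀ (by linarith) (Real.add_one_le_exp _) _
      _ = Real.exp (241 * Y) := by rw [← Real.exp_nat_mul]; norm_num
      _ ≤ Real.exp ((Y : ℝ) ^ 2) := by
          apply Real.exp_le_exp.2
          nlinarith
  have h2 : 16 * ((Y : ℝ) ^ 240 + 1) ≤ ((Y : ℝ) + 1) ^ 241 := by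
    have h3 : (Y : ℝ) ^ 240 ≤ ((Y : ℝ) + 1) ^ 240 := pow_le_pow_left₀ hY0.le (by linarith) _
    have h4 : (1 : ℝ) ≤ ((Y : ℝ) + 1) ^ 240 := one_le_pow₀ (by linarith)
    calc 16 * ((Y : ℝ) ^ 240 + 1) ≤ 16 * (2 * ((Y : ℝ) + 1) ^ 240) := by linarith
      _ = 32 * ((Y : ℝ) + 1) ^ 240 := by ring
      _ ≤ ((Y : ℝ) + 1) * ((Y : ℝ) + 1) ^ 240 := by
          gcongr
          linarith
      _ = ((Y : ℝ) + 1) ^ 241 := by ring
  rw [Real.exp_neg, ← div_eq_mul_inv, div_le_div_iff₀ (Real.exp_pos _) (by norm_num)]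
  linarith

theorem small2 (Y : ℕ) (hY : 10 ^ 6 ≤ Y) (P : ℝ) (hP : P ≤ Real.exp (2 * (Y : ℝ) ^ 30)) :
    P * Real.exp (-3 * (Y : ℝ) ^ 30) ≤ 1 / 16 := by
  have hYr : (10 : ℝ) ^ 6 ≤ Y := by exact_mod_cast hY
  have hY1 : (1 : ℝ) ≤ Y := by linarith
  have h1 : (Y : ℝ) ≤ (Y : ℝ) ^ 30 := le_self_pow₀ hY1 (by norm_num)
  calc P * Real.exp (-3 * (Y : ℝ) ^ 30) ≤ Real.exp (2 * (Y : ℝ) ^ 30) * Real.exp (-3 * (Y : ℝ) ^ 30) :=
        mul_le_mul_of_nonneg_right hP (Real.exp_pos _).le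
    _ = Real.exp (-(Y : ℝ) ^ 30) := by
        rw [← Real.exp_add]
        congr 1
        ring
    _ ≤ 1 / 16 := by
        rw [Real.exp_neg, ← one_div]
        apply one_div_le_one_div_of_le (by norm_num)
        have := Real.add_one_le_exp ((Y : ℝ) ^ 30)
        linarith

theorem small3 (Y : ℕ) (hY : 10 ^ 6 ≤ Y) (P : ℝ) (hP : P ≤ Real.exp (2 * (Y : ℝ) ^ 30)) :
    P * (Real.exp (-((Y ^ 319 : ℕ) : ℝ) / 4) + Real.exp (-((Y ^ 319 : ℕ) : ℝ))) ≤ 1 / 4 := by
  have hYr : (10 : ℝ) ^ 6 ≤ Y := by exact_mod_cast hY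
  have hY1 : (1 : ℝ) ≤ Y := by linarith
  have h1 : (Y : ℝ) ≤ (Y : ℝ) ^ 30 := le_self_pow₀ hY1 (by norm_num)
  have h2 : 16 * (Y : ℝ) ^ 30 ≤ (Y : ℝ) ^ 319 := by
    calc 16 * (Y : ℝ) ^ 30 ≤ Y * (Y : ℝ) ^ 30 := by
          gcongr
          linarith
      _ = (Y : ℝ) ^ 31 := by ring
      _ ≤ (Y : ℝ) ^ 319 := pow_le_pow_right₀ hY1 (by norm_num)
  have h3 : Real.exp (-((Y ^ 319 : ℕ) : ℝ)) ≤ Real.exp (-((Y ^ 319 : ℕ) : ℝ) / 4) := by
    apply Real.exp_le_exp.2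
    have : (0 : ℝ) ≤ ((Y ^ 319 : ℕ) : ℝ) := Nat.cast_nonneg _
    linarith
  have h4 : Real.exp (-((Y ^ 319 : ℕ) : ℝ) / 4) ≤ Real.exp (-4 * (Y : ℝ) ^ 30) := by
    apply Real.exp_le_exp.2
    push_cast
    linarith
  calc P * (Real.exp (-((Y ^ 319 : ℕ) : ℝ) / 4) + Real.exp (-((Y ^ 319 : ℕ) : ℝ)))
      ≤ Real.exp (2 * (Y : ℝ) ^ 30) *
        (Real.exp (-((Y ^ 319 : ℕ) : ℝ) / 4) + Real.exp (-((Y ^ 319 : ℕ) : ℝ))) :=
        mul_le_mul_of_nonneg_right hP (by positivity)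
    _ ≤ Real.exp (2 * (Y : ℝ) ^ 30) * (2 * Real.exp (-4 * (Y : ℝ) ^ 30)) := by
        apply mul_le_mul_of_nonneg_left _ (Real.exp_pos _).le
        linarith
    _ = 2 * Real.exp (-(2 * (Y : ℝ) ^ 30)) := by
        rw [mul_left_comm, ← Real.exp_add]
        congr 2
        ring
    _ ≤ 1 / 4 := by
        rw [Real.exp_neg, ← div_eq_mul_inv, div_le_div_iff₀ (Real.exp_pos _) (by norm_num)]
        have := Real.add_one_le_exp (2 * (Y : ℝ) ^ 30)
        linarith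

theorem wt_nonneg (B : Finset ℕ) (q : ℝ) (h0 : 0 ≤ q) (h1 : q ≤ 1) (S : Finset ℕ) : 0 ≤ wt B q S := by
  unfold wt
  have : 0 ≤ 1 - q := by linarith
  positivity

theorem R_empty : R ∅ = 0 := by
  unfold R
  simp

theorem R_eq_zero {S : Finset ℕ} (hS : ∀ n ∈ S, 0 < n) (h : R S = 0) : S = ∅ := by
  by_contra hne
  obtain ⟨n, hn⟩ := Finset.nonempty_iff_ne_empty.2 hne
  unfold R at h
  have h1 : ∀ m ∈ S, 0 ≤ (1 : ℝ) / m := fun m _ => by positivity
  have h2 := (Finset.sum_eq_zero_iff_of_nonneg h1).1 h n hn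
  have h3 : (0 : ℝ) < n := by exact_mod_cast hS n hn
  have h4 : (0 : ℝ) < 1 / n := by positivity
  linarith

theorem t_CIR : S_FOU → S_TAIL → S_MID → S_BAD → S_SML → S_CIR := by
  classical
  intro hF hT hM hBd hS Y hY B P hP hBP hB hR2 hRY hPe hbad
  by_contra hcon
  push Not at hcon
  have hR0 : 0 < R B := by linarith
  set q : ℝ := 1 / R B with hq
  have hq0 : 0 ≤ q := by positivity
  have hq1 : q ≤ 1 := by
    rw [hq, div_le_one hR0]
    linarith
  have hYr : (10 : ℝ) ^ 6 ≤ Y := by exact_mod_cast hY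
  have hYpos : 0 < Y := by omega
  have hBpos : ∀ n ∈ B, 0 < n := fun n hn => lt_of_lt_of_le (pow_pos hYpos _) (hB n hn).1
  have hBP' : ∀ n ∈ B, 0 < n ∧ n ∣ P := fun n hn => ⟨hBpos n hn, hBP n hn⟩
  -- the right-hand side
  have hF' := hF B q P hP hBP
  obtain ⟨hT1, hT2⟩ := hT B (Y ^ 319) (pow_pos hYpos _) (fun n hn => (hB n hn).1) hR2
  have hright : ∑ S ∈ B.powerset.filter (fun S => ∃ m : ℕ, R S = m), wt B q S ≤
      Real.exp (-((Y ^ 319 : ℕ) : ℝ) / 4) + Real.exp (-((Y ^ 319 : ℕ) : ℝ)) := by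
    have h1 : ∑ S ∈ B.powerset.filter (fun S => ∃ m : ℕ, R S = m), wt B q S ≤
        ∑ S ∈ insert ∅ (B.powerset.filter (fun S => 2 ≤ R S)), wt B q S := by
      refine Finset.sum_le_sum_of_subset_of_nonneg ?_ fun S _ _ => wt_nonneg B q hq0 hq1 S
      intro S hS'
      obtain ⟨hSB, m, hm⟩ := Finset.mem_filter.1 hS'
      have hSB' := Finset.mem_powerset.1 hSB
      rw [Finset.mem_insert, Finset.mem_filter]
      rcases Nat.lt_or_ge m 2 with hm2 | hm2
      · rcases Nat.lt_or_ge m 1 with hm1 | hm1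
        · left
          rw [show m = 0 by omega, Nat.cast_zero] at hm
          exact R_eq_zero (fun n hn => hBpos n (hSB' hn)) hm
        · exfalso
          rw [show m = 1 by omega, Nat.cast_one] at hm
          exact hcon S hSB' hm
      · right
        refine ⟨hSB, ?_⟩
        rw [hm]
        exact_mod_cast hm2
    rw [Finset.sum_insert (by
      rw [Finset.mem_filter, not_and]
      intro _
      rw [R_empty]
      norm_num)] at h1
    linarith
  -- the left-hand side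
  have hterm : ∀ h ∈ Finset.range P, (if h = 0 then (1 : ℝ) else 0) -
      ((if h ≤ Y ^ 240 then Real.exp (-(Y : ℝ) ^ 2) else 0) +
        (if P - h ≤ Y ^ 240 then Real.exp (-(Y : ℝ) ^ 2) else 0)) - Real.exp (-3 * (Y : ℝ) ^ 30) ≤
      (Ph B q (h : ℤ)).re := by
    have hmain : ∀ h : ℕ, 0 < h → 2 * h ≤ P →
        -((if h ≤ Y ^ 240 then Real.exp (-(Y : ℝ) ^ 2) else 0)) - Real.exp (-3 * (Y : ℝ) ^ 30) ≤
        (Ph B q (h : ℤ)).re := by
      intro h hh0 hhP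
      have hE := Real.exp_pos (-3 * (Y : ℝ) ^ 30)
      have hE' := Real.exp_pos (-(Y : ℝ) ^ 2)
      rcases Nat.lt_or_ge (Y ^ 181) h with h1 | h1
      · rcases Nat.lt_or_ge (Y ^ 240) h with h2 | h2
        · have h3 := hBd Y hY B hB hR2 hRY h h2 (hbad h h2 hhP)
          have h4 := (abs_le.1 (Complex.abs_re_le_norm (Ph B q (h : ℤ)))).1
          rw [if_neg (by omega)]
          linarith
        · have h3 := hM Y hY B hB hR2 h h1 h2
          have h4 := (abs_le.1 (Complex.abs_re_le_norm (Ph B q (h : ℤ)))).1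
          rw [if_pos h2]
          linarith
      · have h3 := hS Y hY B hB hR2 h h1
        have h4 : (0 : ℝ) ≤ if h ≤ Y ^ 240 then Real.exp (-(Y : ℝ) ^ 2) else 0 := by
          split_ifs <;> positivity
        linarith
    intro h hh
    rw [Finset.mem_range] at hh
    have hE := Real.exp_pos (-3 * (Y : ℝ) ^ 30)
    have hA : (0 : ℝ) ≤ if h ≤ Y ^ 240 then Real.exp (-(Y : ℝ) ^ 2) else 0 := by
      split_ifs <;> positivity
    have hA' : (0 : ℝ) ≤ if P - h ≤ Y ^ 240 then Real.exp (-(Y : ℝ) ^ 2) else 0 := by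
      split_ifs <;> positivity
    rcases Nat.eq_zero_or_pos h with h0 | h0
    · subst h0
      rw [if_pos rfl, Nat.cast_zero, Ph_zero, Complex.one_re]
      linarith
    · rw [if_neg (by omega)]
      rcases Nat.lt_or_ge P (2 * h) with h1 | h1
      · have h2 := hmain (P - h) (by omega) (by omega)
        rw [Ph_conj B q P hBP' h hh.le, Complex.conj_re] at h2
        linarith
      · have h2 := hmain h h0 h1
        linarith
  have hsum := Finset.sum_le_sum hterm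
  rw [Finset.sum_sub_distrib, Finset.sum_sub_distrib, Finset.sum_add_distrib,
    Finset.sum_const, Finset.card_range, nsmul_eq_mul] at hsum
  have h1 : ∑ h ∈ Finset.range P, (if h = 0 then (1 : ℝ) else 0) = 1 := by
    rw [Finset.sum_ite_eq' (Finset.range P) 0 (fun _ => (1 : ℝ)), if_pos (Finset.mem_range.2 hP)]
  have h2 : ∑ h ∈ Finset.range P, (if h ≤ Y ^ 240 then Real.exp (-(Y : ℝ) ^ 2) else 0) ≤
      ((Y : ℝ) ^ 240 + 1) * Real.exp (-(Y : ℝ) ^ 2) := by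
    rw [← Finset.sum_filter, Finset.sum_const, nsmul_eq_mul]
    refine mul_le_mul_of_nonneg_right ?_ (Real.exp_pos _).le
    have h3 : ((Finset.range P).filter (fun h => h ≤ Y ^ 240)).card ≤ Y ^ 240 + 1 := by
      rw [← Finset.card_range (Y ^ 240 + 1)]
      refine Finset.card_le_card fun h hh => ?_
      rw [Finset.mem_range]
      have := (Finset.mem_filter.1 hh).2
      omega
    exact_mod_cast h3
  have h3 : ∑ h ∈ Finset.range P, (if P - h ≤ Y ^ 240 then Real.exp (-(Y : ℝ) ^ 2) else 0) ≤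
      ((Y : ℝ) ^ 240 + 1) * Real.exp (-(Y : ℝ) ^ 2) := by
    rw [← Finset.sum_filter, Finset.sum_const, nsmul_eq_mul]
    refine mul_le_mul_of_nonneg_right ?_ (Real.exp_pos _).le
    have h3 : ((Finset.range P).filter (fun h => P - h ≤ Y ^ 240)).card ≤ Y ^ 240 + 1 := by
      rw [← Finset.card_range (Y ^ 240 + 1)]
      refine Finset.card_le_card_of_injOn (fun h => P - h) ?_ ?_
      · intro h hh
        have := (Finset.mem_filter.1 (Finset.mem_coe.1 hh)).2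
        simp only [Finset.coe_range, Set.mem_Iio]
        omega
      · intro a ha b hb hab
        have h4 := Finset.mem_range.1 (Finset.mem_filter.1 (Finset.mem_coe.1 ha)).1
        have h5 := Finset.mem_range.1 (Finset.mem_filter.1 (Finset.mem_coe.1 hb)).1
        simp only at hab
        omega
    exact_mod_cast h3
  have h4 := small1 Y hY
  have h5 := small2 Y hY P hPe
  have h6 := small3 Y hY P hPe
  have h7 : ∑ h ∈ Finset.range P, (Ph B q (h : ℤ)).re =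
      (P : ℝ) * ∑ S ∈ B.powerset.filter (fun S => ∃ m : ℕ, R S = m), wt B q S := by
    rw [← Complex.re_sum, hF', ← Complex.ofReal_natCast, ← Complex.ofReal_mul, Complex.ofReal_re]
  have h8 : (P : ℝ) * ∑ S ∈ B.powerset.filter (fun S => ∃ m : ℕ, R S = m), wt B q S ≤
      (P : ℝ) * (Real.exp (-((Y ^ 319 : ℕ) : ℝ) / 4) + Real.exp (-((Y ^ 319 : ℕ) : ℝ))) :=
    mul_le_mul_of_nonneg_left hright (Nat.cast_nonneg _)
  rw [h1, h7] at hsum
  linarith

end Pool.Agent.J4H2.HN
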