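import Pool.Agent.J4H48.HN.Stm

/-!
# Project HN (helper48): the exponent is best possible (helper2)
-/

set_option autoImplicit false

open Polynomial

namespace Pool.Agent.J4H2.HN

open Pool.Agent.J4H48.HN

theorem hasPer (D q j : ℕ) (hD : 1 ≤ D) : HasPer (X ^ (D * q)) 1 (-1) (-((j : ℤ) ^ q)) D := by
  obtain ⟨y, hy⟩ : ∃ y : ℂ, y ^ D = (j : ℂ) := IsAlgClosed.exists_pow_nat_eq (j : ℂ) (by omega)
  have hev : aeval y (X ^ D - C (j : ℚ)) = 0 := by simp [hy]
  have hint : IsIntegral ℚ y :=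
    ⟨X ^ D - C (j : ℚ), monic_X_pow_sub_C _ (by omega), by rw [← aeval_def]; exact hev⟩
  refine ⟨IntermediateField.adjoin ℚ {y}, IntermediateField.adjoin.finiteDimensional hint, ?_,
    (y, y), IntermediateField.mem_adjoin_simple_self ℚ y, IntermediateField.mem_adjoin_simple_self ℚ y,
    1, le_rfl, ?_⟩
  · rw [IntermediateField.adjoin.finrank hint]
    have h1 : minpoly ℚ y ∣ X ^ D - C (j : ℚ) := minpoly.dvd _ _ hev
    have h2 := natDegree_le_of_dvd h1 (X_pow_sub_C_ne_zero (by omega) _)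
    rwa [natDegree_X_pow_sub_C] at h2
  · rw [Function.iterate_one]
    unfold henon
    simp only [map_pow, aeval_X, Prod.mk.injEq, true_and]
    rw [pow_mul, hy]
    push_cast
    ring

theorem t_SHARP : S_SHARP := by
  intro D q hD hq _ k
  have hfin : {c : ℤ | 1 - (k : ℤ) ^ q ≤ c ∧ c < 1 - (k : ℤ) ^ q + (k ^ q : ℕ) ∧
      HasPer (X ^ (D * q)) 1 (-1) c D}.Finite :=
    (Set.finite_Ico (1 - (k : ℤ) ^ q) (1 - (k : ℤ) ^ q + (k ^ q : ℕ))).subset
      (fun c hc => ⟨hc.1, hc.2.1⟩)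
  have hinj : Function.Injective (fun j : ℕ => -((j : ℤ) ^ q)) := by
    intro i j hij
    have h1 : (i : ℤ) ^ q = (j : ℤ) ^ q := by simpa using hij
    have h2 : i ^ q = j ^ q := by exact_mod_cast h1
    exact Nat.pow_left_injective (by omega) h2
  have hsub : (fun j : ℕ => -((j : ℤ) ^ q)) '' (Set.Iio k) ⊆
      {c : ℤ | 1 - (k : ℤ) ^ q ≤ c ∧ c < 1 - (k : ℤ) ^ q + (k ^ q : ℕ) ∧
        HasPer (X ^ (D * q)) 1 (-1) c D} := by
    rintro _ ⟨j, hj, rfl⟩
    have hj' : j < k := hj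
    have h1 : j ^ q < k ^ q := Nat.pow_lt_pow_left hj' (by omega)
    have h2 : (j : ℤ) ^ q < (k : ℤ) ^ q := by exact_mod_cast h1
    have h3 : (0 : ℤ) ≤ (j : ℤ) ^ q := by positivity
    refine ⟨?_, ?_, hasPer D q j hD⟩
    · show 1 - (k : ℤ) ^ q ≤ -((j : ℤ) ^ q)
      omega
    · show -((j : ℤ) ^ q) < 1 - (k : ℤ) ^ q + (k ^ q : ℕ)
      push_cast
      omega
  have h1 := Set.ncard_le_ncard hsub hfin
  rw [Set.ncard_image_of_injective _ hinj] at h1
  have h2 : (Set.Iio k : Set ℕ).ncard = k := by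
    rw [← Finset.coe_range, Set.ncard_coe_finset, Finset.card_range]
  rw [h2] at h1
  exact h1

end Pool.Agent.J4H2.HN
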