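import Pool.Agent.J4H93.HN.Stm

set_option autoImplicit false

/-! # Project HN, (SML): the small frequencies -/

namespace Pool.Agent.J4H2.HN

open Finset
open Pool.Agent.J4H93.HN

/-- products of complex numbers in small sectors -/
theorem sector {α : Type} [DecidableEq α] (B : Finset α) (z : α → ℂ) (ε : α → ℝ)
    (hε : ∀ n ∈ B, 0 ≤ ε n) (hre : ∀ n ∈ B, 0 ≤ (z n).re)
    (him : ∀ n ∈ B, |(z n).im| ≤ ε n * (z n).re) (hs : 2 * ∑ n ∈ B, ε n ≤ 1 / 2) :
    0 ≤ (∏ n ∈ B, z n).re ∧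
      |(∏ n ∈ B, z n).im| ≤ (2 * ∑ n ∈ B, ε n) * (∏ n ∈ B, z n).re := by
  induction B using Finset.induction_on with
  | empty => simp
  | insert a s ha ih =>
    have hε' : ∀ n ∈ s, 0 ≤ ε n := fun n hn => hε n (Finset.mem_insert_of_mem hn)
    rw [Finset.sum_insert ha] at hs
    have hea := hε a (Finset.mem_insert_self _ _)
    have hra := hre a (Finset.mem_insert_self _ _)
    have hia := him a (Finset.mem_insert_self _ _)
    have hs0 : 0 ≤ ∑ n ∈ s, ε n := Finset.sum_nonneg hε'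
    obtain ⟨h1, h2⟩ := ih hε' (fun n hn => hre n (Finset.mem_insert_of_mem hn))
      (fun n hn => him n (Finset.mem_insert_of_mem hn)) (by linarith)
    rw [Finset.prod_insert ha, Finset.sum_insert ha, Complex.mul_re, Complex.mul_im]
    set Z := ∏ n ∈ s, z n with hZ
    set T := 2 * ∑ n ∈ s, ε n with hT
    have hT0 : 0 ≤ T := by positivity
    have hTe : T + 2 * ε a ≤ 1 / 2 := by linarith
    have h3 : |(z a).im * Z.im| ≤ (ε a * (z a).re) * (T * Z.re) := by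
      rw [abs_mul]
      exact mul_le_mul hia h2 (abs_nonneg _) (by positivity)
    have h4 : |(z a).re * Z.im| ≤ (z a).re * (T * Z.re) := by
      rw [abs_mul, abs_of_nonneg hra]
      exact mul_le_mul_of_nonneg_left h2 hra
    have h5 : |(z a).im * Z.re| ≤ (ε a * (z a).re) * Z.re := by
      rw [abs_mul, abs_of_nonneg h1]
      exact mul_le_mul_of_nonneg_right hia h1
    have hp : 0 ≤ (z a).re * Z.re := mul_nonneg hra h1
    have h6 : (1 - ε a * T) * ((z a).re * Z.re) ≤ (z a).re * Z.re - (z a).im * Z.im := by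
      have := (abs_le.1 h3).2
      nlinarith
    have h7 : ε a * T ≤ 1 / 4 := by nlinarith
    refine ⟨le_trans (mul_nonneg (by linarith) hp) h6, ?_⟩
    have h8 : |(z a).re * Z.im + (z a).im * Z.re| ≤ (ε a + T) * ((z a).re * Z.re) := by
      refine (abs_add_le _ _).trans ?_
      nlinarith
    refine h8.trans ?_
    have h9 : ε a + T ≤ (2 * (ε a + ∑ n ∈ s, ε n)) * (1 - ε a * T) := by
      have : 2 * (ε a + ∑ n ∈ s, ε n) = 2 * ε a + T := by rw [hT]; ring
      rw [this]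
      nlinarith [mul_nonneg hea hT0, mul_nonneg hea hea, mul_nonneg (mul_nonneg hea hT0) hea]
    calc (ε a + T) * ((z a).re * Z.re)
        ≤ (2 * (ε a + ∑ n ∈ s, ε n)) * (1 - ε a * T) * ((z a).re * Z.re) :=
          mul_le_mul_of_nonneg_right h9 hp
      _ = (2 * (ε a + ∑ n ∈ s, ε n)) * ((1 - ε a * T) * ((z a).re * Z.re)) := by ring
      _ ≤ _ := mul_le_mul_of_nonneg_left h6 (by positivity)

/-- the factor -/
noncomputable def zz (q a : ℝ) : ℂ :=
  (1 - (q : ℂ)) * Complex.exp (((-(q * a) : ℝ) : ℂ) * Complex.I) +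
    (q : ℂ) * Complex.exp ((((1 - q) * a : ℝ) : ℂ) * Complex.I)

theorem zz_re (q a : ℝ) : (zz q a).re = (1 - q) * Real.cos (q * a) + q * Real.cos ((1 - q) * a) := by
  have h1 : (1 - (q : ℂ)) = ((1 - q : ℝ) : ℂ) := by push_cast; ring
  rw [zz, h1, Complex.add_re, Complex.re_ofReal_mul, Complex.re_ofReal_mul,
    Complex.exp_ofReal_mul_I_re, Complex.exp_ofReal_mul_I_re, Real.cos_neg]

theorem zz_im (q a : ℝ) : (zz q a).im = q * Real.sin ((1 - q) * a) - (1 - q) * Real.sin (q * a) := by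
  have h1 : (1 - (q : ℂ)) = ((1 - q : ℝ) : ℂ) := by push_cast; ring
  rw [zz, h1, Complex.add_im, Complex.im_ofReal_mul, Complex.im_ofReal_mul,
    Complex.exp_ofReal_mul_I_im, Complex.exp_ofReal_mul_I_im, Real.sin_neg]
  ring

theorem sin_bds {x : ℝ} (h0 : 0 ≤ x) (_h1 : x ≤ 1) : x - x ^ 3 / 4 ≤ Real.sin x ∧ Real.sin x ≤ x := by
  rcases eq_or_lt_of_le h0 with h | h
  · rw [← h]
    simp
  · have h2 := Real.sin_gt_sub_cube h
    have h3 : 0 < x ^ 3 := by positivity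
    exact ⟨by linarith, (Real.sin_lt h).le⟩

theorem zz_bd {q a : ℝ} (hq0 : 0 ≤ q) (hq1 : q ≤ 1) (ha0 : 0 ≤ a) (ha1 : a ≤ 1) :
    1 / 2 ≤ (zz q a).re ∧ |(zz q a).im| ≤ q * a ^ 3 / 4 := by
  have h1 : 0 ≤ q * a := mul_nonneg hq0 ha0
  have h2 : q * a ≤ a := by nlinarith
  have h3 : 0 ≤ (1 - q) * a := mul_nonneg (by linarith) ha0
  have h4 : (1 - q) * a ≤ a := by nlinarith
  constructor
  · rw [zz_re]
    have h5 := Real.one_sub_sq_div_two_le_cos (x := q * a)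
    have h6 := Real.one_sub_sq_div_two_le_cos (x := (1 - q) * a)
    have h7 : (q * a) ^ 2 ≤ 1 := by nlinarith
    have h8 : ((1 - q) * a) ^ 2 ≤ 1 := by nlinarith
    nlinarith
  · rw [zz_im]
    obtain ⟨h5, h6⟩ := sin_bds h1 (by linarith)
    obtain ⟨h7, h8⟩ := sin_bds h3 (by linarith)
    have h9 : (q * a) ^ 3 ≤ q * a ^ 3 := by
      have : (q * a) ^ 3 = q * a ^ 3 * q ^ 2 := by ring
      rw [this]
      have h10 : 0 ≤ q * a ^ 3 := by positivity
      have h11 : q ^ 2 ≤ 1 := by nlinarith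
      nlinarith
    have h9' : ((1 - q) * a) ^ 3 ≤ a ^ 3 := pow_le_pow_left₀ h3 h4 3
    have h10 : 0 ≤ q * a ^ 3 := by positivity
    have h12 : 0 ≤ (q * a) ^ 3 := by positivity
    have h13 : 0 ≤ ((1 - q) * a) ^ 3 := by positivity
    rw [abs_le]
    constructor
    · have h14 : q * ((1 - q) * a - ((1 - q) * a) ^ 3 / 4) ≤ q * Real.sin ((1 - q) * a) :=
        mul_le_mul_of_nonneg_left h7 hq0
      have h15 : (1 - q) * Real.sin (q * a) ≤ (1 - q) * (q * a) :=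
        mul_le_mul_of_nonneg_left h6 (by linarith)
      have h16 : q * ((1 - q) * a) ^ 3 ≤ q * a ^ 3 := mul_le_mul_of_nonneg_left h9' hq0
      nlinarith
    · have h14 : q * Real.sin ((1 - q) * a) ≤ q * ((1 - q) * a) :=
        mul_le_mul_of_nonneg_left h8 hq0
      have h15 : (1 - q) * (q * a - (q * a) ^ 3 / 4) ≤ (1 - q) * Real.sin (q * a) :=
        mul_le_mul_of_nonneg_left h5 (by linarith)
      have h16 : (1 - q) * (q * a) ^ 3 ≤ q * a ^ 3 := by nlinarith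
      nlinarith

/-- the factors `e(q h / n)` cancel -/
theorem Ph_eq (B : Finset ℕ) (q : ℝ) (h : ℕ) (hq : q * R B = 1) :
    Ph B q h = ∏ n ∈ B, zz q (2 * Real.pi * h / n) := by
  have h1 : ∀ n : ℕ, (1 - (q : ℂ) + q * Complex.exp (2 * Real.pi * Complex.I * ((h : ℤ) : ℂ) / n)) =
      Complex.exp ((q : ℂ) * (2 * Real.pi * Complex.I * h / n)) * zz q (2 * Real.pi * h / n) := by
    intro n
    rw [zz, mul_add]
    have e1 : Complex.exp ((q : ℂ) * (2 * Real.pi * Complex.I * h / n)) *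
        ((1 - (q : ℂ)) * Complex.exp (((-(q * (2 * Real.pi * h / n)) : ℝ) : ℂ) * Complex.I)) =
        1 - (q : ℂ) := by
      rw [mul_left_comm, ← Complex.exp_add]
      have : (q : ℂ) * (2 * Real.pi * Complex.I * h / n) +
          ((-(q * (2 * Real.pi * h / n)) : ℝ) : ℂ) * Complex.I = 0 := by
        push_cast
        ring
      rw [this, Complex.exp_zero, mul_one]
    have e2 : Complex.exp ((q : ℂ) * (2 * Real.pi * Complex.I * h / n)) *
        ((q : ℂ) * Complex.exp ((((1 - q) * (2 * Real.pi * h / n) : ℝ) : ℂ) * Complex.I)) =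
        q * Complex.exp (2 * Real.pi * Complex.I * ((h : ℤ) : ℂ) / n) := by
      rw [mul_left_comm, ← Complex.exp_add]
      congr 2
      push_cast
      ring
    rw [e1, e2]
  unfold Ph
  rw [Finset.prod_congr rfl fun n _ => h1 n, Finset.prod_mul_distrib, ← Complex.exp_sum,
    ← Finset.mul_sum]
  have h2 : (q : ℂ) * ∑ n ∈ B, (2 * Real.pi * Complex.I * h / n : ℂ) =
      (h : ℂ) * (2 * Real.pi * Complex.I) := by
    have h3 : ((q * R B : ℝ) : ℂ) = 1 := by rw [hq]; simp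
    have h4 : (q : ℂ) * ∑ n ∈ B, (2 * Real.pi * Complex.I * h / n : ℂ) =
        ((q * R B : ℝ) : ℂ) * ((h : ℂ) * (2 * Real.pi * Complex.I)) := by
      unfold R
      push_cast
      rw [mul_assoc (q : ℂ), Finset.sum_mul]
      congr 1
      refine Finset.sum_congr rfl fun n _ => ?_
      ring
    rw [h4, h3, one_mul]
  rw [h2, Complex.exp_nat_mul_two_pi_mul_I, one_mul]

theorem t_SML : S_SML := by
  intro Y hY B hB hR h hh
  have hR0 : 0 < R B := by linarith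
  set q : ℝ := 1 / R B with hq
  have hq0 : 0 ≤ q := by positivity
  have hq1 : q ≤ 1 := by
    rw [hq, div_le_one hR0]
    linarith
  have hqR : q * R B = 1 := by
    rw [hq]
    field_simp
  have hYr : (10 : ℝ) ^ 6 ≤ Y := by exact_mod_cast hY
  have hY1 : (1 : ℝ) ≤ Y := by linarith
  have hY0 : (0 : ℝ) < Y := by linarith
  have hhr : (h : ℝ) ≤ (Y : ℝ) ^ 181 := by exact_mod_cast hh
  have hpi : Real.pi < 3.15 := Real.pi_lt_d2
  have hpi0 : 0 < Real.pi := Real.pi_pos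
  have hn : ∀ n ∈ B, (Y : ℝ) ^ 319 ≤ n := fun n hn => by exact_mod_cast (hB n hn).1
  have hn0 : ∀ n ∈ B, (0 : ℝ) < n := fun n hn' => lt_of_lt_of_le (by positivity) (hn n hn')
  -- the angles
  set a : ℕ → ℝ := fun n => 2 * Real.pi * h / n with ha
  have ha0 : ∀ n ∈ B, 0 ≤ a n := fun n hn' => by
    have := hn0 n hn'
    simp only [ha]
    positivity
  have hsm : ∀ n ∈ B, a n ≤ 7 * h / (Y : ℝ) ^ 319 := fun n hn' => by
    simp only [ha]
    have h1 : (2 * Real.pi * h) ≤ 7 * h := by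
      have : (0 : ℝ) ≤ h := Nat.cast_nonneg h
      nlinarith
    exact div_le_div₀ (by positivity) h1 (by positivity) (hn n hn')
  have hlast : 7 * (h : ℝ) / (Y : ℝ) ^ 319 ≤ 1 / (Y : ℝ) ^ 137 := by
    rw [div_le_div_iff₀ (by positivity) (by positivity), one_mul]
    calc 7 * (h : ℝ) * (Y : ℝ) ^ 137 ≤ (Y : ℝ) * (Y : ℝ) ^ 181 * (Y : ℝ) ^ 137 := by
          gcongr
          linarith
      _ = (Y : ℝ) ^ 319 := by ring
  have ha1' : ∀ n ∈ B, a n ≤ 1 / (Y : ℝ) ^ 137 := fun n hn' => (hsm n hn').trans hlast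
  have hY137 : 1 / (Y : ℝ) ^ 137 ≤ 1 := by
    rw [div_le_one (by positivity)]
    exact one_le_pow₀ hY1
  have ha1 : ∀ n ∈ B, a n ≤ 1 := fun n hn' => (ha1' n hn').trans hY137
  -- the sum
  have hcube : ∀ n ∈ B, a n ^ 3 ≤ (1 / 10 ^ 6) * (1 / (n : ℝ)) := by
    intro n hn'
    have h1 : a n * (n : ℝ) = 2 * Real.pi * h := by
      simp only [ha]
      exact div_mul_cancel₀ _ (hn0 n hn').ne'
    have h2 : a n * (n : ℝ) ≤ (Y : ℝ) ^ 182 := by
      rw [h1]
      calc 2 * Real.pi * (h : ℝ) ≤ (Y : ℝ) * (Y : ℝ) ^ 181 := by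
            gcongr
            linarith
        _ = (Y : ℝ) ^ 182 := by ring
    have h3 : a n ^ 2 ≤ (1 / (Y : ℝ) ^ 137) ^ 2 := pow_le_pow_left₀ (ha0 n hn') (ha1' n hn') 2
    rw [← mul_div_assoc, mul_one, le_div_iff₀ (hn0 n hn')]
    have h4 : a n ^ 3 * (n : ℝ) = a n ^ 2 * (a n * n) := by ring
    rw [h4]
    have h5 : a n ^ 2 * (a n * n) ≤ (1 / (Y : ℝ) ^ 137) ^ 2 * (Y : ℝ) ^ 182 :=
      mul_le_mul h3 h2 (mul_nonneg (ha0 n hn') (hn0 n hn').le) (by positivity)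
    refine h5.trans ?_
    rw [div_pow, one_pow, ← pow_mul, div_mul_eq_mul_div, one_mul,
      div_le_div_iff₀ (by positivity) (by positivity), one_mul]
    calc (Y : ℝ) ^ 182 * 10 ^ 6 ≤ (Y : ℝ) ^ 182 * Y := by gcongr
      _ = (Y : ℝ) ^ 183 := by ring
      _ ≤ (Y : ℝ) ^ (137 * 2) := pow_le_pow_right₀ hY1 (by norm_num)
  have hsum : 2 * ∑ n ∈ B, q * a n ^ 3 / 2 ≤ 1 / 2 := by
    have h1 : ∑ n ∈ B, q * a n ^ 3 / 2 ≤ ∑ n ∈ B, (q / 2 * (1 / 10 ^ 6)) * (1 / (n : ℝ)) := by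
      refine Finset.sum_le_sum fun n hn' => ?_
      have := mul_le_mul_of_nonneg_left (hcube n hn') hq0
      linarith
    rw [← Finset.mul_sum] at h1
    have h2 : (q / 2 * (1 / 10 ^ 6)) * ∑ n ∈ B, (1 / (n : ℝ)) = (1 / 2 * (1 / 10 ^ 6)) * (q * R B) := by
      unfold R
      ring
    rw [h2, hqR] at h1
    linarith
  have hPh : Ph B q (h : ℤ) = ∏ n ∈ B, zz q (a n) := Ph_eq B q h hqR
  rw [hPh]
  refine (sector B (fun n => zz q (a n)) (fun n => q * a n ^ 3 / 2) ?_ ?_ ?_ hsum).1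
  · intro n hn'
    have := ha0 n hn'
    positivity
  · intro n hn'
    have := (zz_bd hq0 hq1 (ha0 n hn') (ha1 n hn')).1
    linarith
  · intro n hn'
    obtain ⟨h1, h2⟩ := zz_bd hq0 hq1 (ha0 n hn') (ha1 n hn')
    have h3 := ha0 n hn'
    have h4 : 0 ≤ q * a n ^ 3 / 2 := by positivity
    calc |(zz q (a n)).im| ≤ q * a n ^ 3 / 4 := h2
      _ = q * a n ^ 3 / 2 * (1 / 2) := by ring
      _ ≤ q * a n ^ 3 / 2 * (zz q (a n)).re := mul_le_mul_of_nonneg_left h1 h4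

end Pool.Agent.J4H2.HN
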